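import Mathlib
import Pool.Agent.Helper292.ForceCH

set_option autoImplicit false
set_option linter.all false

namespace Pool.Agent.Results.MP_820435_lc.ConsistentlyFails

section

universe u
/-! ### Recursion along a well-order -/

theorem exists_rec {I : Type u} [LinearOrder I] [WellFoundedLT I] {X : Type*} [Inhabited X]
    (Phi : I → (I → X) → X → Prop)
    (hloc : ∀ i (D D' : I → X) x, (∀ j, j < i → D j = D' j) → Phi i D x → Phi i D' x)
    (hex : ∀ i D, ∃ x, Phi i D x) : ∃ D : I → X, ∀ i, Phi i D (D i) := by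
  classical
  let step : (i : I) → ((j : I) → j < i → X) → X := fun i D =>
    Classical.choose (hex i (fun j => if h : j < i then D j h else default))
  let D : I → X := WellFounded.fix (wellFounded_lt (α := I)) step
  refine ⟨D, fun i => ?_⟩
  have h1 : D i = step i (fun j _ => D j) := WellFounded.fix_eq _ _ _
  have h2 : Phi i (fun j => if h : j < i then D j else default) (step i (fun j _ => D j)) :=
    Classical.choose_spec (hex i (fun j => if h : j < i then D j else default))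
  rw [← h1] at h2
  refine hloc i _ _ _ ?_ h2
  intro j hj
  simp [hj]

/-! ### Trees on `ℕ ⊕ I` given by addresses -/

section Tree

variable {I : Type u}

/-- The address of a node: the list of nodes from its root up to itself. -/
def addr (D : I → List (ℕ ⊕ I) × ℕ) : ℕ ⊕ I → List (ℕ ⊕ I)
  | Sum.inl m => [Sum.inl m]
  | Sum.inr i => (D i).1 ++ [Sum.inr i]

/-- The rank of a node. -/
def rk (D : I → List (ℕ ⊕ I) × ℕ) : ℕ ⊕ I → ℕ
  | Sum.inl m => m
  | Sum.inr i => (D i).2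

/-- Weak tree order. -/
def le (D : I → List (ℕ ⊕ I) × ℕ) (u v : ℕ ⊕ I) : Prop := addr D u <+: addr D v

/-- Strict tree order. -/
def lt (D : I → List (ℕ ⊕ I) × ℕ) (u v : ℕ ⊕ I) : Prop := addr D u <+: addr D v ∧ u ≠ v

/-- Nodes that are roots or have index below `d`. -/
def Below [LT I] (d : I) : ℕ ⊕ I → Prop
  | Sum.inl _ => True
  | Sum.inr i => i < d

/-- The set `A` is an antichain. -/
def Anti (D : I → List (ℕ ⊕ I) × ℕ) (A : Set (ℕ ⊕ I)) : Prop :=
  ∀ a ∈ A, ∀ b ∈ A, ¬ lt D a b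

/-- The task `(d, A)` is satisfied at the node `t` at level `n`. -/
def Sat [LT I] (D : I → List (ℕ ⊕ I) × ℕ) (d : I) (A : Set (ℕ ⊕ I)) (n : ℕ) (t : ℕ ⊕ I) : Prop :=
  ∃ s, Below d s ∧ le D s t ∧ ∀ a ∈ A, n ≤ rk D a → ¬ lt D s a

variable [LinearOrder I]

theorem Below.mono {d e : I} (h : d ≤ e) {v : ℕ ⊕ I} (hv : Below d v) : Below e v := by
  cases v with
  | inl m => trivial
  | inr i => exact lt_of_lt_of_le hv h

theorem le_refl (D : I → List (ℕ ⊕ I) × ℕ) (u : ℕ ⊕ I) : le D u u := List.prefix_refl _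

theorem le_trans {D : I → List (ℕ ⊕ I) × ℕ} {u v w : ℕ ⊕ I} (h1 : le D u v) (h2 : le D v w) :
    le D u w := List.IsPrefix.trans h1 h2

/-- The key lemma: finitely many tasks can be satisfied simultaneously above any node of large
enough rank. -/
theorem key (D : I → List (ℕ ⊕ I) × ℕ) (i : I) (L : Finset (I × Set (ℕ ⊕ I))) :
    (∀ τ ∈ L, τ.1 ≤ i ∧ (∀ a ∈ τ.2, Below τ.1 a) ∧ Anti D τ.2) →
    ∀ N : ℕ, ∃ m : ℕ, ∀ t : ℕ ⊕ I, Below i t → (∀ τ ∈ L, Below τ.1 t) → m ≤ rk D t →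
      ∃ t', Below i t' ∧ le D t t' ∧ ∃ n, N ≤ n ∧ n < rk D t' ∧ ∀ τ ∈ L, Sat D τ.1 τ.2 n t' := by
  classical
  refine Finset.induction_on_min_value (fun τ : I × Set (ℕ ⊕ I) => τ.1) (s := L) ?_ ?_
  · intro _ N
    refine ⟨N + 1, fun t ht _ hm => ⟨t, ht, le_refl D t, N, le_rfl, hm, ?_⟩⟩
    intro τ hτ; simp at hτ
  · intro τ L' hτL' hmin IH hL N
    have hL' : ∀ τ' ∈ L', τ'.1 ≤ i ∧ (∀ a ∈ τ'.2, Below τ'.1 a) ∧ Anti D τ'.2 :=
      fun τ' h => hL τ' (Finset.mem_insert_of_mem h)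
    have hτ := hL τ (Finset.mem_insert_self _ _)
    obtain ⟨m1, hm1⟩ := IH hL' N
    obtain ⟨m2, hm2⟩ := IH hL' (max m1 N)
    refine ⟨m2, fun t ht hb hm => ?_⟩
    obtain ⟨t', ht', hle, n, hn, hrk, hsat⟩ :=
      hm2 t ht (fun τ' h => hb τ' (Finset.mem_insert_of_mem h)) hm
    by_cases hS : Sat D τ.1 τ.2 n t'
    · refine ⟨t', ht', hle, n, (le_max_right _ _).trans hn, hrk, ?_⟩
      intro τ' h'
      rcases Finset.mem_insert.mp h' with rfl | h'
      · exact hS
      · exact hsat τ' h'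
    · have hbt : Below τ.1 t := hb τ (Finset.mem_insert_self _ _)
      have : ∃ a ∈ τ.2, n ≤ rk D a ∧ lt D t a := by
        by_contra hcon
        push Not at hcon
        exact hS ⟨t, hbt, hle, fun a ha hna => hcon a ha hna⟩
      obtain ⟨a, haA, hna, hta⟩ := this
      have hba : Below τ.1 a := hτ.2.1 a haA
      obtain ⟨t'', ht'', hle'', n'', hn'', hrk'', hsat''⟩ :=
        hm1 a (hba.mono hτ.1) (fun τ' h => hba.mono (hmin τ' h))
          (((le_max_left _ _).trans hn).trans hna)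
      refine ⟨t'', ht'', le_trans hta.1 hle'', n'', hn'', hrk'', ?_⟩
      intro τ' h'
      rcases Finset.mem_insert.mp h' with rfl | h'
      · exact ⟨a, hba, hle'', fun a' ha' _ => hτ.2.2 a haA a' ha'⟩
      · exact hsat'' τ' h'

end Tree

section Build

variable {I : Type u} [LinearOrder I] [WellFoundedLT I]

theorem addr_congr {D D' : I → List (ℕ ⊕ I) × ℕ} {i : I} (h : ∀ j, j < i → D j = D' j)
    {v : ℕ ⊕ I} (hv : Below i v) : addr D v = addr D' v := by
  cases v with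
  | inl m => rfl
  | inr j => simp [addr, h j hv]

theorem rk_congr {D D' : I → List (ℕ ⊕ I) × ℕ} {i : I} (h : ∀ j, j < i → D j = D' j)
    {v : ℕ ⊕ I} (hv : Below i v) : rk D v = rk D' v := by
  cases v with
  | inl m => rfl
  | inr j => simp [rk, h j hv]

theorem lt_congr {D D' : I → List (ℕ ⊕ I) × ℕ} {i : I} (h : ∀ j, j < i → D j = D' j)
    {u v : ℕ ⊕ I} (hu : Below i u) (hv : Below i v) : lt D u v ↔ lt D' u v := by
  unfold lt; rw [addr_congr h hu, addr_congr h hv]

theorem le_congr {D D' : I → List (ℕ ⊕ I) × ℕ} {i : I} (h : ∀ j, j < i → D j = D' j)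
    {u v : ℕ ⊕ I} (hu : Below i u) (hv : Below i v) : le D u v ↔ le D' u v := by
  unfold le; rw [addr_congr h hu, addr_congr h hv]

/-- The requirement on the data attached to the index `i`. -/
def Req (F : I → Finset (I × Set (ℕ ⊕ I))) (i : I) (D : I → List (ℕ ⊕ I) × ℕ)
    (x : List (ℕ ⊕ I) × ℕ) : Prop :=
  ∃ b, Below i b ∧ x.1 = addr D b ∧ x.2 < rk D b ∧
    ∀ τ ∈ F i, τ.1 ≤ i → (∀ a ∈ τ.2, Below τ.1 a) → Anti D τ.2 → Sat D τ.1 τ.2 x.2 b

theorem exists_data (F : I → Finset (I × Set (ℕ ⊕ I))) :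
    ∃ D : I → List (ℕ ⊕ I) × ℕ, ∀ i, Req F i D (D i) := by
  classical
  refine exists_rec (Req F) ?_ ?_
  · rintro i D D' x h ⟨b, hb, hx1, hx2, hx3⟩
    refine ⟨b, hb, ?_, ?_, ?_⟩
    · rw [hx1, addr_congr h hb]
    · rwa [← rk_congr h hb]
    · intro τ hτ hτi hA hanti
      have hA' : ∀ a ∈ τ.2, Below i a := fun a ha => (hA a ha).mono hτi
      have hanti' : Anti D τ.2 := by
        intro a ha c hc hlt
        exact hanti a ha c hc ((lt_congr h (hA' a ha) (hA' c hc)).mp hlt)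
      obtain ⟨s, hs, hle, hs'⟩ := hx3 τ hτ hτi hA hanti'
      have hsi : Below i s := hs.mono hτi
      refine ⟨s, hs, (le_congr h hsi hb).mp hle, ?_⟩
      intro a ha hn hlt
      exact hs' a ha (by rwa [rk_congr h (hA' a ha)]) ((lt_congr h hsi (hA' a ha)).mpr hlt)
  · intro i D
    let L := (F i).filter (fun τ => τ.1 ≤ i ∧ (∀ a ∈ τ.2, Below τ.1 a) ∧ Anti D τ.2)
    obtain ⟨m, hm⟩ := key D i L (by
      intro τ hτ; exact (Finset.mem_filter.mp hτ).2) 0
    obtain ⟨t', ht', -, n, -, hrk, hsat⟩ := hm (Sum.inl m) trivial (fun _ _ => trivial) le_rfl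
    refine ⟨(addr D t', n), t', ht', rfl, hrk, ?_⟩
    intro τ hτ h1 h2 h3
    exact hsat τ (Finset.mem_filter.mpr ⟨hτ, h1, h2, h3⟩)

end Build

/-! ### Consequences for valid data -/

section Facts

variable {I : Type u} [LinearOrder I] [WellFoundedLT I]

/-- Every node of index `i` has a parent of smaller index and larger rank. -/
def Valid (D : I → List (ℕ ⊕ I) × ℕ) : Prop :=
  ∀ i, ∃ b, Below i b ∧ (D i).1 = addr D b ∧ (D i).2 < rk D b

theorem addr_last (D : I → List (ℕ ⊕ I) × ℕ) (v : ℕ ⊕ I) : (addr D v).getLast? = some v := by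
  cases v <;> simp [addr]

theorem addr_inj {D : I → List (ℕ ⊕ I) × ℕ} {u v : ℕ ⊕ I} (h : addr D u = addr D v) : u = v := by
  have h1 := addr_last D u
  rw [h, addr_last D v] at h1
  exact (Option.some.inj h1).symm

theorem addr_ne_nil (D : I → List (ℕ ⊕ I) × ℕ) (v : ℕ ⊕ I) : addr D v ≠ [] := by
  cases v <;> simp [addr]

theorem lt_inr {D : I → List (ℕ ⊕ I) × ℕ} {i : I} {b : ℕ ⊕ I} (hb : (D i).1 = addr D b)
    {u : ℕ ⊕ I} : lt D u (Sum.inr i) ↔ le D u b := by
  constructor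
  · rintro ⟨h1, h2⟩
    have h3 : addr D (Sum.inr i) = addr D b ++ [Sum.inr i] := by simp [addr, hb]
    rw [h3, List.prefix_concat_iff] at h1
    rcases h1 with h1 | h1
    · exact absurd (addr_inj (h1.trans h3.symm)) h2
    · exact h1
  · intro h
    have h3 : addr D (Sum.inr i) = addr D b ++ [Sum.inr i] := by simp [addr, hb]
    refine ⟨?_, ?_⟩
    · rw [h3]; exact h.trans (List.prefix_append _ _)
    · rintro rfl
      have := h.length_le
      rw [h3] at this
      simp at this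

theorem not_lt_inl {D : I → List (ℕ ⊕ I) × ℕ} {m : ℕ} {u : ℕ ⊕ I} : ¬ lt D u (Sum.inl m) := by
  rintro ⟨h1, h2⟩
  have h3 : addr D (Sum.inl m) = [Sum.inl m] := rfl
  rw [h3] at h1
  rcases List.prefix_concat_iff.mp (show addr D u <+: [] ++ [Sum.inl m] from h1) with h | h
  · exact h2 (addr_inj (by rw [h, h3]; rfl))
  · exact addr_ne_nil D u (List.prefix_nil.mp h)

theorem le_iff {D : I → List (ℕ ⊕ I) × ℕ} {u v : ℕ ⊕ I} : le D u v ↔ u = v ∨ lt D u v := by
  constructor
  · intro h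
    by_cases huv : u = v
    · exact Or.inl huv
    · exact Or.inr ⟨h, huv⟩
  · rintro (rfl | h)
    · exact le_refl _ _
    · exact h.1

theorem rk_lt_of_lt {D : I → List (ℕ ⊕ I) × ℕ} (hD : Valid D) (v : ℕ ⊕ I) :
    ∀ u, lt D u v → rk D v < rk D u := by
  rcases v with m | i
  · intro u h; exact absurd h not_lt_inl
  · induction i using WellFoundedLT.induction with
    | ind i IH =>
      intro u hu
      obtain ⟨b, hb, hb1, hb2⟩ := hD i
      rw [lt_inr hb1] at hu
      rcases le_iff.mp hu with rfl | hub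
      · exact hb2
      · cases b with
        | inl m => exact absurd hub not_lt_inl
        | inr j => exact hb2.trans (IH j hb u hub)

theorem lt_irrefl' (D : I → List (ℕ ⊕ I) × ℕ) (v : ℕ ⊕ I) : ¬ lt D v v := fun h => h.2 rfl

theorem lt_trans' {D : I → List (ℕ ⊕ I) × ℕ} (hD : Valid D) {u v w : ℕ ⊕ I} (h1 : lt D u v)
    (h2 : lt D v w) : lt D u w := by
  refine ⟨h1.1.trans h2.1, ?_⟩
  rintro rfl
  have := rk_lt_of_lt hD _ _ h1
  have := rk_lt_of_lt hD _ _ h2
  omega

theorem comparable {D : I → List (ℕ ⊕ I) × ℕ} {a b c : ℕ ⊕ I} (h1 : lt D a c) (h2 : lt D b c) :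
    lt D a b ∨ a = b ∨ lt D b a := by
  by_cases hab : a = b
  · exact Or.inr (Or.inl hab)
  rcases List.prefix_or_prefix_of_prefix h1.1 h2.1 with h | h
  · exact Or.inl ⟨h, hab⟩
  · exact Or.inr (Or.inr ⟨h, fun e => hab e.symm⟩)

theorem finite_below (D : I → List (ℕ ⊕ I) × ℕ) (v : ℕ ⊕ I) : {u | lt D u v}.Finite := by
  classical
  have h1 : {u | lt D u v} ⊆ (addr D) ⁻¹' {l | l <+: addr D v} := by
    intro u hu; exact hu.1
  have h2 : {l | l <+: addr D v}.Finite := by
    have : {l | l <+: addr D v} ⊆ ((addr D v).inits.toFinset : Set (List (ℕ ⊕ I))) := by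
      intro l hl
      simp only [List.coe_toFinset, Set.mem_ofPred_eq]
      exact (List.mem_inits _ _).mpr hl
    exact (Finset.finite_toSet _).subset this
  exact (h2.preimage (fun u _ v _ h => addr_inj h)).subset h1

/-- The main property of the construction: an antichain avoids all indices at which its task has
been taken care of. -/
theorem avoid {F : I → Finset (I × Set (ℕ ⊕ I))} {D : I → List (ℕ ⊕ I) × ℕ}
    (hD : ∀ i, Req F i D (D i)) {A : Set (ℕ ⊕ I)} (hA : Anti D A) {d : I}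
    (hcl : ∀ s, Below d s → ∀ n, (∃ a ∈ A, n ≤ rk D a ∧ lt D s a) →
      ∃ a ∈ A, Below d a ∧ n ≤ rk D a ∧ lt D s a)
    {i : I} (hdi : d ≤ i) (hF : (d, {a | a ∈ A ∧ Below d a}) ∈ F i) : Sum.inr i ∉ A := by
  intro hi
  obtain ⟨b, hb, hb1, hb2, hb3⟩ := hD i
  obtain ⟨s, hs, hsb, hs'⟩ := hb3 _ hF hdi (fun a ha => ha.2)
    (fun a ha c hc => hA a ha.1 c hc.1)
  have hlt : lt D s (Sum.inr i) := (lt_inr hb1).mpr hsb
  obtain ⟨a, haA, had, hna, hlt'⟩ := hcl s hs (rk D (Sum.inr i)) ⟨_, hi, le_rfl, hlt⟩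
  exact hs' a ⟨haA, had⟩ hna hlt'

end Facts

/-! ### No infinite path in the comparability graph -/

theorem no_path {V : Type*} (R : V → V → Prop) (htrans : ∀ {a b c}, R a b → R b c → R a c)
    (hcomp : ∀ {a b c}, R a c → R b c → R a b ∨ a = b ∨ R b a)
    (rank : V → ℕ) (hrank : ∀ {a b}, R a b → rank b < rank a)
    (hfin : ∀ v, {u | R u v}.Finite)
    (f : ℕ → V) (hf : Function.Injective f) (hadj : ∀ n, R (f n) (f (n + 1)) ∨ R (f (n + 1)) (f n)) :
    False := by
  classical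
  -- a minimal element above `c` and below `v`
  have hmin : ∀ c v, R c v → ∃ c', R c c' ∧ (c' = v ∨ R c' v) ∧
      ∀ w, R c w → (w = v ∨ R w v) → ¬ R w c' := by
    intro c v hcv
    have hfin' : {u | R c u ∧ (u = v ∨ R u v)}.Finite := by
      refine ((hfin v).insert v).subset ?_
      rintro u ⟨_, hu⟩
      rcases hu with rfl | hu
      · exact Set.mem_insert _ _
      · exact Set.mem_insert_of_mem _ hu
    obtain ⟨c', hc', hmax⟩ := Set.exists_max_image _ rank hfin' ⟨v, hcv, Or.inl rfl⟩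
    refine ⟨c', hc'.1, hc'.2, ?_⟩
    intro w hw1 hw2 hwc
    have := hmax w ⟨hw1, hw2⟩
    have := hrank hwc
    omega
  have claim1 : ∀ r, ∀ c, rank c = r → {n | R c (f n)}.Infinite → False := by
    intro r
    induction r using Nat.strong_induction_on with
    | _ r IH =>
      intro c hc hinf
      -- beyond `n0` the path never visits `c` or anything below `c`
      have hfin0 : {n | f n = c ∨ R (f n) c}.Finite := by
        have : {n | f n = c ∨ R (f n) c} ⊆ f ⁻¹' (insert c {u | R u c}) := by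
          intro n hn
          rcases hn with hn | hn
          · exact Or.inl hn
          · exact Or.inr hn
        exact (((hfin c).insert c).preimage (fun a _ b _ h => hf h)).subset this
      obtain ⟨n0, hn0⟩ := hfin0.bddAbove
      obtain ⟨n1, hn1, hn01⟩ := hinf.exists_gt n0
      have habove : ∀ n, n1 ≤ n → R c (f n) := by
        intro n hn
        induction n, hn using Nat.le_induction with
        | base => exact hn1
        | succ n hn ih =>
          rcases hadj n with h | h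
          · exact htrans ih h
          · rcases hcomp ih h with h' | h' | h'
            · exact h'
            · have := hn0 (show n + 1 ∈ {n | f n = c ∨ R (f n) c} from Or.inl h'.symm)
              omega
            · have := hn0 (show n + 1 ∈ {n | f n = c ∨ R (f n) c} from Or.inr h')
              omega
      obtain ⟨c', hcc', hc'1, hc'min⟩ := hmin c (f n1) hn1
      have habove' : ∀ n, n1 ≤ n → (c' = f n ∨ R c' (f n)) := by
        intro n hn
        induction n, hn using Nat.le_induction with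
        | base => exact hc'1
        | succ n hn ih =>
          rcases hadj n with h | h
          · rcases ih with ih | ih
            · exact Or.inr (ih ▸ h)
            · exact Or.inr (htrans ih h)
          · have h1 : R c (f (n + 1)) := habove (n + 1) (by omega)
            have hno : ¬ R (f (n + 1)) c' := by
              intro h2
              refine hc'min (f (n + 1)) h1 ?_ h2
              rcases hc'1 with h3 | h3
              · exact Or.inr (h3 ▸ h2)
              · exact Or.inr (htrans h2 h3)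
            rcases ih with ih | ih
            · exact absurd (ih ▸ h) hno
            · rcases hcomp ih h with h' | h' | h'
              · exact Or.inr h'
              · exact Or.inl h'
              · exact absurd h' hno
      have hinf' : {n | R c' (f n)}.Infinite := by
        have hfin1 : {n | c' = f n}.Finite := by
          refine Set.Subsingleton.finite ?_
          intro a ha b hb
          exact hf (ha.symm.trans hb)
        have hbig : (Set.Ici n1 : Set ℕ).Infinite := Set.Ici_infinite n1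
        refine (hbig.sdiff hfin1).mono ?_
        rintro n ⟨hn, hn'⟩
        rcases habove' n hn with h | h
        · exact absurd h hn'
        · exact h
      exact IH (rank c') (by rw [← hc]; exact hrank hcc') c' rfl hinf'
  -- the root of `f 0`
  have hfin' : {u | u = f 0 ∨ R u (f 0)}.Finite := by
    refine ((hfin (f 0)).insert (f 0)).subset ?_
    intro u hu
    rcases hu with rfl | hu
    · exact Set.mem_insert _ _
    · exact Set.mem_insert_of_mem _ hu
  obtain ⟨c, hc, hcmax⟩ := Set.exists_max_image _ rank hfin' ⟨f 0, Or.inl rfl⟩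
  have hcmin : ∀ w, ¬ R w c := by
    intro w hw
    have h1 : w = f 0 ∨ R w (f 0) := by
      rcases hc with rfl | hc
      · exact Or.inr hw
      · exact Or.inr (htrans hw hc)
    have := hcmax w h1
    have := hrank hw
    omega
  have hall : ∀ n, c = f n ∨ R c (f n) := by
    intro n
    induction n with
    | zero => exact hc
    | succ n ih =>
      rcases hadj n with h | h
      · rcases ih with ih | ih
        · exact Or.inr (ih ▸ h)
        · exact Or.inr (htrans ih h)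
      · rcases ih with ih | ih
        · exact absurd (ih ▸ h) (hcmin _)
        · rcases hcomp ih h with h' | h' | h'
          · exact Or.inr h'
          · exact Or.inl h'
          · exact absurd h' (hcmin _)
  refine claim1 _ c rfl ?_
  have hfin1 : {n | c = f n}.Finite := by
    refine Set.Subsingleton.finite ?_
    intro a ha b hb
    exact hf (ha.symm.trans hb)
  refine (Set.infinite_univ.sdiff hfin1).mono ?_
  rintro n ⟨-, hn'⟩
  rcases hall n with h | h
  · exact absurd h hn'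
  · exact h

end

section

universe u
/-- Closing off: above every index there is one that is closed for the set `A`. -/
theorem exists_closed {I : Type u} [LinearOrder I] [WellFoundedLT I]
    (H1 : ∀ (d : I) (f : ℕ ⊕ I → ℕ → I), ∃ e, ∀ s, Below d s → ∀ n, f s n < e)
    (D : I → List (ℕ ⊕ I) × ℕ) (A : Set (ℕ ⊕ I)) (d0 : I) :
    ∃ d : I, ∀ s, Below d s → ∀ n, (∃ a ∈ A, n ≤ rk D a ∧ lt D s a) →
      ∃ a ∈ A, Below d a ∧ n ≤ rk D a ∧ lt D s a := by
  classical
  -- index of a witness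
  have hw : ∀ s n, ∃ w : I, (∃ a ∈ A, n ≤ rk D a ∧ lt D s a) →
      ∃ a ∈ A, (∀ e, w < e → Below e a) ∧ n ≤ rk D a ∧ lt D s a := by
    intro s n
    by_cases h : ∃ a ∈ A, n ≤ rk D a ∧ lt D s a
    · obtain ⟨a, ha, hn, hlt⟩ := h
      cases a with
      | inl m => exact absurd hlt not_lt_inl
      | inr j => exact ⟨j, fun _ => ⟨Sum.inr j, ha, fun e he => he, hn, hlt⟩⟩
    · exact ⟨d0, fun h' => absurd h' h⟩
  choose w hw using hw
  choose g hg using fun d => H1 d w
  let s : ℕ → I := fun k => Nat.rec d0 (fun _ d => max d (g d)) k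
  have hs1 : ∀ k, s (k + 1) = max (s k) (g (s k)) := fun k => rfl
  obtain ⟨e, he⟩ := H1 d0 (fun _ n => s n)
  have hne : {x | ∀ n, s n ≤ x}.Nonempty := ⟨e, fun n => (he (Sum.inl 0) trivial n).le⟩
  obtain ⟨d, hd, hmin⟩ := (wellFounded_lt (α := I)).has_min _ hne
  refine ⟨d, fun v hv n hex => ?_⟩
  have hk : ∃ k, Below (s k) v := by
    cases v with
    | inl m => exact ⟨0, trivial⟩
    | inr i =>
      by_contra hcon
      push Not at hcon
      exact hmin i (fun n => not_lt.mp (hcon n)) hv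
  obtain ⟨k, hk⟩ := hk
  obtain ⟨a, ha, hb, hn, hlt⟩ := hw v n hex
  refine ⟨a, ha, ?_, hn, hlt⟩
  have h1 : w v n < s (k + 1) := by
    rw [hs1]; exact lt_of_lt_of_le (hg (s k) v hk n) (le_max_right _ _)
  exact (hb _ h1).mono (hd (k + 1))

/-- The graph given by comparability in a well-founded tree. -/
theorem graph_core_aux {I M : Type u} [LinearOrder I] [WellFoundedLT I] [Nonempty I]
    (hseg : ∀ d : I, ∃ e : M → {s : ℕ ⊕ I // Below d s} × ℕ, Function.Surjective e)
    (hbdd : ∀ f : M → I, ∃ e, ∀ m, f m < e)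
    (tk : I → I × (M → Option (ℕ ⊕ I))) (htk : Function.Surjective tk)
    {W : Type*} (e : W → I) (he : Function.Injective e) (K : W → Finset I) :
    ∃ G : SimpleGraph W,
      (¬ ∃ f : ℕ → W, Function.Injective f ∧ ∀ n, G.Adj (f n) (f (n + 1))) ∧
      ∀ S : Set W, (∀ x ∈ S, ∀ y ∈ S, ¬ G.Adj x y) →
        ∃ j d : I, ∀ x ∈ S, j ∈ K x → e x < d := by
  classical
  have H1 : ∀ (d : I) (f : ℕ ⊕ I → ℕ → I), ∃ e, ∀ s, Below d s → ∀ n, f s n < e := by
    intro d f
    obtain ⟨q, hq⟩ := hseg d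
    obtain ⟨b, hb⟩ := hbdd (fun m => f (q m).1.1 (q m).2)
    refine ⟨b, fun s hs n => ?_⟩
    obtain ⟨m, hm⟩ := hq (⟨s, hs⟩, n)
    have := hb m
    simpa [hm] using this
  let task : I → I × Set (ℕ ⊕ I) := fun j => ((tk j).1, {a | ∃ m, (tk j).2 m = some a})
  have htask : ∀ (d : I) (A' : Set (ℕ ⊕ I)), (∀ a ∈ A', Below d a) → ∃ j, task j = (d, A') := by
    intro d A' hA'
    obtain ⟨q, hq⟩ := hseg d
    obtain ⟨j, hj⟩ := htk (d, fun m => if (q m).1.1 ∈ A' then some (q m).1.1 else none)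
    refine ⟨j, ?_⟩
    simp only [task, hj, Prod.mk.injEq, true_and]
    ext a
    simp only [Set.mem_ofPred_eq]
    constructor
    · rintro ⟨m, hm⟩
      by_cases h : (q m).1.1 ∈ A'
      · rw [if_pos h] at hm; rw [← Option.some.inj hm]; exact h
      · rw [if_neg h] at hm; exact absurd hm (by simp)
    · intro ha
      obtain ⟨m, hm⟩ := hq (⟨a, hA' a ha⟩, 0)
      refine ⟨m, ?_⟩
      have : (q m).1.1 = a := by rw [hm]
      rw [this, if_pos ha]
  let F : I → Finset (I × Set (ℕ ⊕ I)) := fun i =>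
    if h : ∃ x, e x = i then (K h.choose).image task else ∅
  have hF : ∀ x, F (e x) = (K x).image task := by
    intro x
    have h : ∃ y, e y = e x := ⟨x, rfl⟩
    have h2 : h.choose = x := he h.choose_spec
    simp only [F, dif_pos h]
    rw [h2]
  obtain ⟨D, hD⟩ := exists_data F
  have hval : Valid D := fun i => by
    obtain ⟨b, h1, h2, h3, _⟩ := hD i
    exact ⟨b, h1, h2, h3⟩
  let G : SimpleGraph W :=
    { Adj := fun x y => lt D (Sum.inr (e x)) (Sum.inr (e y)) ∨ lt D (Sum.inr (e y)) (Sum.inr (e x))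
      symm := ⟨fun x y h => h.symm⟩
      loopless := ⟨fun x h => by
        rcases h with h | h <;> exact lt_irrefl' _ _ h⟩ }
  refine ⟨G, ?_, ?_⟩
  · rintro ⟨f, hf, hadj⟩
    refine no_path (lt D) (fun h1 h2 => lt_trans' hval h1 h2) (fun h1 h2 => comparable h1 h2)
      (rk D) (fun {a b} h => rk_lt_of_lt hval b a h) (finite_below D)
      (fun n => Sum.inr (e (f n))) ?_ hadj
    intro a b hab
    exact hf (he (Sum.inr.inj hab))
  · intro S hS
    let A : Set (ℕ ⊕ I) := (fun x => Sum.inr (e x)) '' S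
    have hA : Anti D A := by
      rintro _ ⟨x, hx, rfl⟩ _ ⟨y, hy, rfl⟩ hlt
      exact hS x hx y hy (Or.inl hlt)
    obtain ⟨d, hd⟩ := exists_closed H1 D A (Classical.arbitrary I)
    obtain ⟨j, hj⟩ := htask d {a | a ∈ A ∧ Below d a} (fun a ha => ha.2)
    refine ⟨j, d, fun x hx hjx => ?_⟩
    by_contra hcon
    push Not at hcon
    refine avoid hD hA hd hcon ?_ ⟨x, hx, rfl⟩
    rw [hF, ← hj]
    exact Finset.mem_image_of_mem _ hjx

open Cardinal in
theorem exists_surj {X Y : Type u} [Nonempty Y] (hle : #Y ≤ #X) :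
    ∃ q : X → Y, Function.Surjective q := by
  obtain ⟨i⟩ := (Cardinal.le_def _ _).mp hle
  exact ⟨Function.invFun i, Function.invFun_surjective i.injective⟩

open Cardinal in
theorem seg_surj {μ : Cardinal.{u}} (hμ : ℵ₀ ≤ μ) {M : Type u} (hM : #M = μ)
    (d : (Order.succ μ).ord.ToType) :
    ∃ e : M → {s : ℕ ⊕ (Order.succ μ).ord.ToType // Below d s} × ℕ, Function.Surjective e := by
  have hne : Nonempty ({s : ℕ ⊕ (Order.succ μ).ord.ToType // Below d s} × ℕ) :=
    ⟨(⟨Sum.inl 0, trivial⟩, 0)⟩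
  refine exists_surj ?_
  have h1 : #{s : ℕ ⊕ (Order.succ μ).ord.ToType // Below d s} ≤ #(ℕ ⊕ Set.Iio d) := by
    refine Cardinal.mk_le_of_injective (f := fun s => match s with
      | ⟨Sum.inl m, _⟩ => Sum.inl m
      | ⟨Sum.inr i, hi⟩ => Sum.inr ⟨i, hi⟩) ?_
    rintro ⟨a | a, ha⟩ ⟨b | b, hb⟩ hab
    · simp at hab; subst hab; rfl
    · simp at hab
    · simp at hab
    · have h := congrArg Subtype.val (Sum.inr.inj hab)
      simp only at h
      subst h; rfl
  have h2 : #(Set.Iio d) ≤ μ := by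
    have := Cardinal.mk_Iio_lt d (by simp)
    rw [Cardinal.mk_ord_toType] at this
    exact Order.lt_succ_iff.mp this
  have h3 : #(ℕ ⊕ Set.Iio d) ≤ μ := by
    rw [Cardinal.mk_sum]
    simp only [Cardinal.mk_nat, Cardinal.lift_aleph0, Cardinal.lift_uzero]
    exact Cardinal.add_le_of_le hμ hμ h2
  rw [hM, Cardinal.mk_prod]
  simp only [Cardinal.mk_nat, Cardinal.lift_aleph0, Cardinal.lift_uzero]
  exact Cardinal.mul_le_of_le hμ (h1.trans h3) hμ

open Cardinal in
theorem bdd_succ {μ : Cardinal.{u}} (hμ : ℵ₀ ≤ μ) {M : Type u} (hM : #M = μ)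
    (f : M → (Order.succ μ).ord.ToType) : ∃ e, ∀ m, f m < e := by
  have hsμ : ℵ₀ ≤ Order.succ μ := hμ.trans (Order.le_succ μ)
  have hreg : (Order.succ μ).IsRegular := Cardinal.isRegular_succ hμ
  let g : M → Ordinal.{u} := fun m => ((Ordinal.ToType.mk.symm (f m) : Set.Iio (Order.succ μ).ord) : Ordinal.{u})
  have hg : ∀ m, g m < (Order.succ μ).ord := fun m =>
    (Ordinal.ToType.mk.symm (f m) : Set.Iio (Order.succ μ).ord).2
  have hlim := Cardinal.isSuccLimit_ord hsμ
  have hsup : (⨆ m, Order.succ (g m)) < (Order.succ μ).ord := by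
    refine Ordinal.iSup_lt_of_lt_cof ?_ (fun m => hlim.succ_lt (hg m))
    rw [hM, hreg.cof_ord]; exact Order.lt_succ μ
  refine ⟨Ordinal.ToType.mk ⟨_, hsup⟩, fun m => ?_⟩
  rw [← OrderIso.symm_apply_apply (Ordinal.ToType.mk (o := (Order.succ μ).ord)).symm (f m)]
  simp only [OrderIso.symm_symm]
  rw [OrderIso.lt_iff_lt, ← Subtype.coe_lt_coe]
  exact lt_of_lt_of_le (Order.lt_succ (g m)) (Ordinal.le_iSup (fun m => Order.succ (g m)) m)

open Cardinal in
theorem enum_tasks {μ : Cardinal.{u}} (hμ : ℵ₀ ≤ μ) (h : (2 : Cardinal.{u}) ^ μ = Order.succ μ)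
    {M : Type u} (hM : #M = μ) :
    ∃ tk : (Order.succ μ).ord.ToType →
      (Order.succ μ).ord.ToType × (M → Option (ℕ ⊕ (Order.succ μ).ord.ToType)),
      Function.Surjective tk := by
  have hsμ : ℵ₀ ≤ Order.succ μ := hμ.trans (Order.le_succ μ)
  have hIcard : #((Order.succ μ).ord.ToType) = Order.succ μ := by simp
  have hIne : Nonempty (Order.succ μ).ord.ToType := by
    rw [← Cardinal.mk_ne_zero_iff, hIcard]
    exact (Cardinal.aleph0_pos.trans_le hsμ).ne'
  refine exists_surj ?_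
  rw [Cardinal.mk_prod, Cardinal.lift_id, Cardinal.lift_id, ← Cardinal.power_def, hIcard, hM]
  have h4 : #(Option (ℕ ⊕ (Order.succ μ).ord.ToType)) ≤ (2 : Cardinal.{u}) ^ μ := by
    rw [Cardinal.mk_option, Cardinal.mk_sum, hIcard, h]
    simp only [Cardinal.mk_nat, Cardinal.lift_aleph0, Cardinal.lift_uzero]
    refine Cardinal.add_le_of_le hsμ (Cardinal.add_le_of_le hsμ hsμ le_rfl) ?_
    exact (Cardinal.one_lt_aleph0.le).trans hsμ
  have h5 : #(Option (ℕ ⊕ (Order.succ μ).ord.ToType)) ^ μ ≤ Order.succ μ := by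
    calc #(Option (ℕ ⊕ (Order.succ μ).ord.ToType)) ^ μ
        ≤ ((2 : Cardinal.{u}) ^ μ) ^ μ := Cardinal.power_le_power_right h4
      _ = 2 ^ (μ * μ) := by rw [Cardinal.power_mul]
      _ = 2 ^ μ := by rw [Cardinal.mul_eq_self hμ]
      _ = Order.succ μ := h
  exact Cardinal.mul_le_of_le hsμ le_rfl h5

open Cardinal in
/-- The graph construction from `2 ^ μ = μ⁺`. -/
theorem graph_core {μ : Cardinal.{u}} (hμ : ℵ₀ ≤ μ) (h : (2 : Cardinal.{u}) ^ μ = Order.succ μ)
    {W : Type*} (e : W → (Order.succ μ).ord.ToType) (he : Function.Injective e)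
    (K : W → Finset (Order.succ μ).ord.ToType) :
    ∃ G : SimpleGraph W,
      (¬ ∃ f : ℕ → W, Function.Injective f ∧ ∀ n, G.Adj (f n) (f (n + 1))) ∧
      ∀ S : Set W, (∀ x ∈ S, ∀ y ∈ S, ¬ G.Adj x y) →
        ∃ j d : (Order.succ μ).ord.ToType, ∀ x ∈ S, j ∈ K x → e x < d := by
  classical
  have hsμ : ℵ₀ ≤ Order.succ μ := hμ.trans (Order.le_succ μ)
  have hIne : Nonempty (Order.succ μ).ord.ToType := by
    rw [← Cardinal.mk_ne_zero_iff, Cardinal.mk_ord_toType]
    exact (Cardinal.aleph0_pos.trans_le hsμ).ne'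
  obtain ⟨M, hM⟩ : ∃ M : Type u, #M = μ := ⟨μ.out, Cardinal.mk_out μ⟩
  obtain ⟨tk, htk⟩ := enum_tasks hμ h hM
  exact graph_core_aux (seg_surj hμ hM) (bdd_succ hμ hM) tk htk e he K

end

section

universe u
open Ordinal Cardinal

/-- `Sm S B`: the set `S` of ordinals has order type at most `B`. -/
def Sm (S : Set Ordinal.{0}) (B : Ordinal.{0}) : Prop :=
  ∃ φ : Ordinal.{0} → Ordinal.{0}, (∀ x ∈ S, ∀ y ∈ S, x < y → φ x < φ y) ∧ ∀ x ∈ S, φ x < B

theorem Sm.mono {S S' : Set Ordinal.{0}} {B B' : Ordinal.{0}} (h : Sm S B) (hS : S' ⊆ S)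
    (hB : B ≤ B') : Sm S' B' := by
  obtain ⟨φ, h1, h2⟩ := h
  exact ⟨φ, fun x hx y hy => h1 x (hS hx) y (hS hy), fun x hx => (h2 x (hS hx)).trans_le hB⟩

theorem sm_empty (B : Ordinal.{0}) {S : Set Ordinal.{0}} (hS : ∀ x, x ∉ S) : Sm S B :=
  ⟨id, fun x hx => absurd hx (hS x), fun x hx => absurd hx (hS x)⟩

theorem sm_singleton (a : Ordinal.{0}) : Sm {a} 1 :=
  ⟨fun _ => 0, fun x hx y hy hxy => by
    rw [Set.mem_singleton_iff] at hx hy
    subst hx; subst hy
    exact absurd hxy (lt_irrefl _), fun x _ => zero_lt_one⟩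

theorem sm_append {S : Set Ordinal.{0}} {c : Ordinal.{0} → Prop} {B1 B2 : Ordinal.{0}}
    (hc : ∀ x ∈ S, ∀ y ∈ S, x < y → c y → c x)
    (h1 : Sm {x | x ∈ S ∧ c x} B1) (h2 : Sm {x | x ∈ S ∧ ¬ c x} B2) : Sm S (B1 + B2) := by
  classical
  obtain ⟨φ1, h11, h12⟩ := h1
  obtain ⟨φ2, h21, h22⟩ := h2
  refine ⟨fun x => if c x then φ1 x else B1 + φ2 x, ?_, ?_⟩
  · intro x hx y hy hxy
    by_cases hcy : c y
    · have hcx := hc x hx y hy hxy hcy
      simp only [if_pos hcy, if_pos hcx]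
      exact h11 x ⟨hx, hcx⟩ y ⟨hy, hcy⟩ hxy
    · simp only [if_neg hcy]
      by_cases hcx : c x
      · simp only [if_pos hcx]
        exact (h12 x ⟨hx, hcx⟩).trans_le (le_add_right le_rfl)
      · simp only [if_neg hcx]
        exact (add_lt_add_iff_left _).mpr (h21 x ⟨hx, hcx⟩ y ⟨hy, hcy⟩ hxy)
  · intro x hx
    by_cases hcx : c x
    · simp only [if_pos hcx]
      exact (h12 x ⟨hx, hcx⟩).trans_le (le_add_right le_rfl)
    · simp only [if_neg hcx]
      exact (add_lt_add_iff_left _).mpr (h22 x ⟨hx, hcx⟩)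

theorem sm_block {S : Set Ordinal.{0}} {ρ : Ordinal.{0} → Ordinal.{0}} {B β : Ordinal.{0}}
    (hρ : ∀ x ∈ S, ∀ y ∈ S, x < y → ρ x ≤ ρ y) (hβ : ∀ x ∈ S, ρ x < β)
    (h : ∀ ζ, ζ < β → Sm {x | x ∈ S ∧ ρ x = ζ} B) : Sm S (B * β) := by
  classical
  have h' : ∀ ζ, ∃ φ : Ordinal.{0} → Ordinal.{0}, ζ < β →
      (∀ x ∈ {x | x ∈ S ∧ ρ x = ζ}, ∀ y ∈ {x | x ∈ S ∧ ρ x = ζ}, x < y → φ x < φ y) ∧
        ∀ x ∈ {x | x ∈ S ∧ ρ x = ζ}, φ x < B := by
    intro ζ
    by_cases hζ : ζ < β
    · obtain ⟨φ, hφ⟩ := h ζ hζ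
      exact ⟨φ, fun _ => hφ⟩
    · exact ⟨id, fun hh => absurd hh hζ⟩
  choose φ hφ using h'
  have hlt : ∀ x ∈ S, B * ρ x + φ (ρ x) x < B * Order.succ (ρ x) := by
    intro x hx
    rw [mul_succ]
    exact (add_lt_add_iff_left _).mpr ((hφ (ρ x) (hβ x hx)).2 x ⟨hx, rfl⟩)
  refine ⟨fun x => B * ρ x + φ (ρ x) x, ?_, ?_⟩
  · intro x hx y hy hxy
    rcases (hρ x hx y hy hxy).lt_or_eq with hlt' | heq
    · exact ((hlt x hx).trans_le (mul_le_mul_right (Order.succ_le_of_lt hlt') _)).trans_le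
        (le_add_right le_rfl)
    · simp only [heq]
      refine (add_lt_add_iff_left _).mpr ?_
      exact (hφ (ρ y) (hβ y hy)).1 x ⟨hx, heq⟩ y ⟨hy, rfl⟩ hxy
  · intro x hx
    exact (hlt x hx).trans_le (mul_le_mul_right (Order.succ_le_of_lt (hβ x hx)) _)

theorem bdd_ctbl {ι : Type*} [Countable ι] (f : ι → Ordinal.{0}) (hf : ∀ i, f i < ω₁) :
    ∃ δ, δ < ω₁ ∧ ∀ i, f i ≤ δ :=
  ⟨⨆ i, f i, Ordinal.iSup_lt_omega_one hf, fun i => Ordinal.le_iSup f i⟩

theorem omega1_eq : (ω₁ : Ordinal.{0}) = (ℵ₁ : Cardinal.{0}).ord := by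
  rw [Cardinal.ord_aleph]

theorem principal_mul : IsPrincipal (· * ·) (ω₁ : Ordinal.{0}) := by
  rw [omega1_eq]
  exact Ordinal.isPrincipal_mul_ord (Cardinal.aleph0_le_aleph 1)

theorem principal_add : IsPrincipal (· + ·) (ω₁ : Ordinal.{0}) := by
  rw [omega1_eq]
  exact Ordinal.isPrincipal_add_ord (Cardinal.aleph0_le_aleph 1)

theorem two_mul_omega1 : (2 : Ordinal.{0}) * ω₁ = ω₁ := by
  refine isPrincipal_mul_iff_mul_left_eq.mp principal_mul 2 (by norm_num) ?_
  exact (nat_lt_omega0 2).trans omega0_lt_omega_one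

theorem countable_Iic {j : Ordinal.{0}} (hj : j < ω₁) : Countable (Set.Iic j) := by
  have h1 : Order.succ j < ω₁ := (isSuccLimit_omega 1).succ_lt hj
  have h2 : Set.Iic j = Set.Iio (Order.succ j) := by
    ext x; simp [Order.lt_succ_iff]
  rw [h2]
  rw [← Cardinal.mk_le_aleph0_iff, Cardinal.mk_Iio_ordinal, Cardinal.lift_le_aleph0]
  rw [omega1_eq, Cardinal.lt_ord, ← Cardinal.succ_aleph0, Order.lt_succ_iff] at h1
  exact h1

/-- Index of a point with respect to a cofinal map. -/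
noncomputable def rho (g : Ordinal.{0} → Ordinal.{0}) (x : Ordinal.{0}) : Ordinal.{0} :=
  sInf {ζ | x ≤ g ζ}

theorem rho_spec {g : Ordinal.{0} → Ordinal.{0}} {x ζ : Ordinal.{0}} (h : x ≤ g ζ) :
    x ≤ g (rho g x) ∧ rho g x ≤ ζ := by
  have hne : {ζ | x ≤ g ζ}.Nonempty := ⟨ζ, h⟩
  exact ⟨csInf_mem hne, csInf_le' h⟩

theorem exists_enum {α : Ordinal.{0}} (hα : α < ω_ 2) (h0 : α ≠ 0) :
    ∃ g : Ordinal.{0} → Ordinal.{0}, (∀ ζ, g ζ < α) ∧ ∀ x, x < α → ∃ ζ, ζ < ω₁ ∧ g ζ = x := by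
  classical
  have hc : α.card ≤ (ω₁ : Ordinal.{0}).card := by
    rw [← Cardinal.ord_aleph, Cardinal.lt_ord] at hα
    rw [Ordinal.card_omega, ← Order.lt_succ_iff, Cardinal.succ_aleph, one_add_one_eq_two]
    exact hα
  have h1 : #(Set.Iio α) ≤ #(Set.Iio (ω₁ : Ordinal.{0})) := by
    rw [Cardinal.mk_Iio_ordinal, Cardinal.mk_Iio_ordinal]
    exact Cardinal.lift_le.mpr hc
  haveI : Nonempty (Set.Iio α) := ⟨⟨0, pos_iff_ne_zero.mpr h0⟩⟩
  obtain ⟨q, hq⟩ := exists_surj h1
  refine ⟨fun ζ => if hζ : ζ < ω₁ then (q ⟨ζ, hζ⟩).1 else 0, ?_, ?_⟩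
  · intro ζ
    by_cases hζ : ζ < ω₁
    · simp only [dif_pos hζ]; exact (q ⟨ζ, hζ⟩).2
    · simp only [dif_neg hζ]; exact pos_iff_ne_zero.mpr h0
  · intro x hx
    obtain ⟨⟨ζ, hζ⟩, h2⟩ := hq ⟨x, hx⟩
    have hζ' : ζ < ω₁ := hζ
    refine ⟨ζ, hζ', ?_⟩
    simp only [dif_pos hζ', h2]

theorem rho_facts {α : Ordinal.{0}} {g : Ordinal.{0} → Ordinal.{0}}
    (hg : ∀ x, x < α → ∃ ζ, ζ < ω₁ ∧ g ζ = x) {x : Ordinal.{0}} (hx : x < α) :
    x ≤ g (rho g x) ∧ rho g x < ω₁ := by
  obtain ⟨ζ, hζ, h⟩ := hg x hx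
  obtain ⟨h1, h2⟩ := rho_spec (g := g) h.ge
  exact ⟨h1, h2.trans_lt hζ⟩

theorem rho_mono {α : Ordinal.{0}} {g : Ordinal.{0} → Ordinal.{0}}
    (hg : ∀ x, x < α → ∃ ζ, ζ < ω₁ ∧ g ζ = x) {x y : Ordinal.{0}} (hxy : x ≤ y) (hy : y < α) :
    rho g x ≤ rho g y :=
  (rho_spec (hxy.trans (rho_facts hg hy).1)).2

/-- The Milner and Rado decomposition. -/
theorem milner_rado (α : Ordinal.{0}) (hα : α < ω_ 2) :
    ∃ n : Ordinal.{0} → ℕ, ∀ m : ℕ, Sm {x | x < α ∧ n x ≤ m} (ω₁ ^ (m : Ordinal.{0})) := by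
  classical
  induction α using WellFoundedLT.induction with
  | ind α IH =>
    by_cases h0 : α = 0
    · subst h0
      exact ⟨fun _ => 0, fun m => sm_empty _ (fun x hx => not_lt_bot hx.1)⟩
    obtain ⟨g, hgα, hg⟩ := exists_enum hα h0
    choose n hn using fun ζ => IH (g ζ) (hgα ζ) ((hgα ζ).trans hα)
    refine ⟨fun x => if x < g (rho g x) then n (rho g x) x + 1 else 1, ?_⟩
    intro m
    cases m with
    | zero =>
      refine sm_empty _ ?_
      rintro x ⟨-, hx⟩
      by_cases h : x < g (rho g x)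
      · simp [if_pos h] at hx
      · simp [if_neg h] at hx
    | succ m =>
      have hpos : (1 : Ordinal.{0}) ≤ ω₁ ^ (m : Ordinal.{0}) := by
        rw [Order.one_le_iff_pos]
        exact opow_pos _ (Ordinal.omega_pos 1)
      have h1 : Sm {x | x < α ∧ (if x < g (rho g x) then n (rho g x) x + 1 else 1) ≤ m + 1}
          ((ω₁ ^ (m : Ordinal.{0}) + 1) * ω₁) := by
        refine sm_block (ρ := rho g) ?_ ?_ ?_
        · rintro x ⟨hx, -⟩ y ⟨hy, -⟩ hxy
          exact rho_mono hg hxy.le hy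
        · rintro x ⟨hx, -⟩
          exact (rho_facts hg hx).2
        · intro ζ hζ
          refine sm_append (c := fun x => x < g ζ) ?_ ?_ ?_
          · intro x _ y _ hxy hy
            exact hxy.trans hy
          · refine (hn ζ m).mono ?_ le_rfl
            rintro x ⟨⟨⟨hxα, hx1⟩, hx2⟩, hx3⟩
            subst hx2
            have hx3' : x < g (rho g x) := hx3
            simp only [if_pos hx3'] at hx1
            exact ⟨hx3, by omega⟩
          · refine (sm_singleton (g ζ)).mono ?_ le_rfl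
            rintro x ⟨⟨⟨hxα, hx1⟩, hx2⟩, hx3⟩
            subst hx2
            exact le_antisymm (rho_facts hg hxα).1 (not_lt.mp hx3)
      refine h1.mono (fun x hx => hx) ?_
      calc (ω₁ ^ (m : Ordinal.{0}) + 1) * ω₁
          ≤ (ω₁ ^ (m : Ordinal.{0}) * 2) * ω₁ := by
            refine mul_le_mul_left ?_ _
            rw [← one_add_one_eq_two, mul_add, mul_one]
            exact add_le_add le_rfl hpos
        _ = ω₁ ^ ((m + 1 : ℕ) : Ordinal.{0}) := by
            rw [mul_assoc, two_mul_omega1, Nat.cast_succ, opow_add, opow_one]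

theorem exists_inj_nat {j : Ordinal.{0}} (hj : j < ω₁) :
    ∃ k : Ordinal.{0} → ℕ, Set.InjOn k (Set.Iio j) := by
  classical
  haveI := countable_Iic hj
  have hsub : Set.Iio j ⊆ Set.Iic j := fun x hx => le_of_lt (show x < j from hx)
  haveI : Countable (Set.Iio j) := ((Set.to_countable (Set.Iic j)).mono hsub).to_subtype
  obtain ⟨f, hf⟩ := exists_injective_nat (Set.Iio j)
  refine ⟨fun x => if hx : x < j then f ⟨x, hx⟩ else 0, ?_⟩
  intro x hx y hy hxy
  have hx' : x < j := hx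
  have hy' : y < j := hy
  simp only [dif_pos hx', dif_pos hy'] at hxy
  exact congrArg Subtype.val (hf hxy)

/-- The family of small sets, each vertex being outside only finitely many of them. -/
theorem small_family (α : Ordinal.{0}) (hα : α < ω_ 2) :
    ∃ K : Ordinal.{0} → Finset Ordinal.{0}, ∀ j, j < ω₁ → ∀ X : Set Ordinal.{0}, X.Countable →
      ∃ δ, δ < ω₁ ∧ Sm {x | x < α ∧ (j ∉ K x ∨ x ∈ X)} (ω₁ ^ (ω + 1) * δ) := by
  classical
  induction α using WellFoundedLT.induction with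
  | ind α IH =>
    by_cases h0 : α = 0
    · subst h0
      exact ⟨fun _ => ∅, fun j _ X _ => ⟨0, Ordinal.omega_pos 1,
        sm_empty _ (fun x hx => not_lt_bot hx.1)⟩⟩
    obtain ⟨g, hgα, hg⟩ := exists_enum hα h0
    choose K hK using fun ζ => IH (g ζ) (hgα ζ) ((hgα ζ).trans hα)
    obtain ⟨n, hn⟩ := milner_rado α hα
    have hk : ∀ ζ : Ordinal.{0}, ∃ k : Ordinal.{0} → ℕ, ζ < ω₁ → Set.InjOn k (Set.Iio ζ) := by
      intro ζ
      by_cases hζ : ζ < ω₁
      · obtain ⟨k, hk⟩ := exists_inj_nat hζ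
        exact ⟨k, fun _ => hk⟩
      · exact ⟨fun _ => 0, fun h => absurd h hζ⟩
    choose k hk using hk
    have hfin : ∀ x, {i | i < rho g x ∧ rho g x < ω₁ ∧ k (rho g x) i < n x}.Finite := by
      intro x
      by_cases hx : rho g x < ω₁
      · refine Set.Finite.of_finite_image (f := k (rho g x)) ?_ ?_
        · refine (Set.finite_Iio (n x)).subset ?_
          rintro _ ⟨i, ⟨_, _, hi⟩, rfl⟩
          exact hi
        · intro a ha c hc hac
          exact hk _ hx ha.1 hc.1 hac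
      · refine Set.finite_empty.subset ?_
        rintro i ⟨_, h, _⟩
        exact absurd h hx
    refine ⟨fun x => (if x < g (rho g x) then K (rho g x) x else ∅) ∪ (hfin x).toFinset, ?_⟩
    intro j hj X hX
    -- a bound for the indices of the exceptional points
    obtain ⟨j', hj'ω, hjj', hXj'⟩ : ∃ j', j' < ω₁ ∧ j ≤ j' ∧
        ∀ x ∈ X, x < α → rho g x ≤ j' := by
      haveI := hX.to_subtype
      obtain ⟨δ, hδ, hδ'⟩ := bdd_ctbl (fun x : X => if x.1 < α then rho g x.1 else 0) (by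
        intro x
        by_cases hx : x.1 < α
        · simp only [if_pos hx]; exact (rho_facts hg hx).2
        · simp only [if_neg hx]; exact Ordinal.omega_pos 1)
      refine ⟨max j δ, max_lt hj hδ, le_max_left _ _, fun x hx hxα => ?_⟩
      have := hδ' ⟨x, hx⟩
      simp only [if_pos hxα] at this
      exact this.trans (le_max_right _ _)
    -- the bounds for the early blocks
    choose D hD using fun ζ => hK ζ j hj X hX
    obtain ⟨δ, hδ, hδ'⟩ : ∃ δ, δ < ω₁ ∧ ∀ ζ, ζ ≤ j' → D ζ ≤ δ := by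
      haveI := countable_Iic hj'ω
      obtain ⟨δ, hδ, hδ'⟩ := bdd_ctbl (fun ζ : Set.Iic j' => D ζ.1) (fun ζ => (hD ζ.1).1)
      exact ⟨δ, hδ, fun ζ hζ => hδ' ⟨ζ, hζ⟩⟩
    refine ⟨Order.succ δ * Order.succ j' + 1, ?_, ?_⟩
    · have hs1 : Order.succ δ < ω₁ := (isSuccLimit_omega 1).succ_lt hδ
      have hs2 : Order.succ j' < ω₁ := (isSuccLimit_omega 1).succ_lt hj'ω
      exact principal_add (principal_mul hs1 hs2) (one_lt_omega0.trans omega0_lt_omega_one)
    · rw [mul_add, mul_one, ← mul_assoc]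
      have hone : (1 : Ordinal.{0}) ≤ ω₁ ^ (ω + 1) := by
        rw [Order.one_le_iff_pos]
        exact opow_pos _ (Ordinal.omega_pos 1)
      refine sm_append (c := fun x => rho g x ≤ j') ?_ ?_ ?_
      · rintro x ⟨hx, -⟩ y ⟨hy, -⟩ hxy hc
        exact (rho_mono hg hxy.le hy).trans hc
      · -- early blocks
        refine sm_block (ρ := rho g) ?_ ?_ ?_
        · rintro x ⟨⟨hx, -⟩, -⟩ y ⟨⟨hy, -⟩, -⟩ hxy
          exact rho_mono hg hxy.le hy
        · rintro x ⟨-, hx⟩
          exact Order.lt_succ_iff.mpr hx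
        · intro ζ hζ
          rw [Order.lt_succ_iff] at hζ
          have h1 : ω₁ ^ (ω + 1) * D ζ + 1 ≤ ω₁ ^ (ω + 1) * Order.succ δ := by
            rw [mul_succ]
            exact add_le_add (mul_le_mul_right (hδ' ζ hζ) _) hone
          refine Sm.mono ?_ (fun x hx => hx) h1
          refine sm_append (c := fun x => x < g ζ) ?_ ?_ ?_
          · intro x _ y _ hxy hy
            exact hxy.trans hy
          · refine (hD ζ).2.mono ?_ le_rfl
            rintro x ⟨⟨⟨⟨hxα, hx1⟩, hx4⟩, hx2⟩, hx3⟩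
            subst hx2
            have hx3' : x < g (rho g x) := hx3
            refine ⟨hx3, ?_⟩
            rcases hx1 with hx1 | hx1
            · left
              intro hcon
              refine hx1 (Finset.mem_union_left _ ?_)
              rw [if_pos hx3']
              exact hcon
            · exact Or.inr hx1
          · refine (sm_singleton (g ζ)).mono ?_ le_rfl
            rintro x ⟨⟨⟨⟨hxα, hx1⟩, hx4⟩, hx2⟩, hx3⟩
            subst hx2
            exact le_antisymm (rho_facts hg hxα).1 (not_lt.mp hx3)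
      · -- late blocks
        have hpow : (ω₁ ^ (ω + 1) : Ordinal.{0}) = ω₁ ^ ω * ω₁ := by rw [opow_add, opow_one]
        rw [hpow]
        refine sm_block (ρ := rho g) ?_ ?_ ?_
        · rintro x ⟨⟨hx, -⟩, -⟩ y ⟨⟨hy, -⟩, -⟩ hxy
          exact rho_mono hg hxy.le hy
        · rintro x ⟨⟨hx, -⟩, -⟩
          exact (rho_facts hg hx).2
        · intro ζ hζ
          have h1 : (ω₁ ^ ((k ζ j : ℕ) : Ordinal.{0}) : Ordinal.{0}) ≤ ω₁ ^ ω :=
            opow_le_opow_right (Ordinal.omega_pos 1) (nat_lt_omega0 _).le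
          refine (hn (k ζ j)).mono ?_ h1
          rintro x ⟨⟨⟨hxα, hx1⟩, hx4⟩, hx2⟩
          subst hx2
          refine ⟨hxα, ?_⟩
          have hjr : j < rho g x := hjj'.trans_lt (not_le.mp hx4)
          have hxX : x ∉ X := fun h => hx4 (hXj' x h hxα)
          rcases hx1 with hx1 | hx1
          · by_contra hcon
            push Not at hcon
            refine hx1 (Finset.mem_union_right _ ?_)
            rw [Set.Finite.mem_toFinset]
            exact ⟨hjr, hζ, hcon⟩
          · exact absurd hx1 hxX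

/-- The graphs. -/
theorem main2 (h : (2 : Cardinal.{0}) ^ ℵ₀ = Order.succ ℵ₀) (α : Ordinal.{0}) (hα : α < ω_ 2) :
    ∃ G : SimpleGraph α.ToType,
      (¬ ∃ f : ℕ → α.ToType, Function.Injective f ∧ ∀ n, G.Adj (f n) (f (n + 1))) ∧
      ∀ S : Set α.ToType, (∀ x ∈ S, ∀ y ∈ S, ¬ G.Adj x y) → typeLT S < ω₁ ^ (ω + 2) := by
  classical
  obtain ⟨K, hK⟩ := small_family α hα
  let o : α.ToType → Ordinal.{0} := fun x => (ToType.mk.symm x : Set.Iio _).1
  have ho : ∀ x, o x < α := fun x => (ToType.mk.symm x : Set.Iio _).2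
  have hoo : ∀ {x y : α.ToType}, o x < o y ↔ x < y := by
    intro x y
    simp only [o]
    rw [Subtype.coe_lt_coe, OrderIso.lt_iff_lt]
  let I : Type := (Order.succ ℵ₀ : Cardinal.{0}).ord.ToType
  have hIω : (Order.succ ℵ₀ : Cardinal.{0}).ord = ω₁ := by
    rw [Cardinal.succ_aleph0, Cardinal.ord_aleph]
  let oI : I → Ordinal.{0} := fun i => (ToType.mk.symm i : Set.Iio _).1
  have hoI : ∀ i, oI i < ω₁ := fun i => by
    rw [← hIω]; exact (ToType.mk.symm i : Set.Iio _).2
  have hoI_inj : Function.Injective oI := by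
    intro i j hij
    have : (ToType.mk.symm i : Set.Iio _) = ToType.mk.symm j := Subtype.ext hij
    exact ToType.mk.symm.injective this
  have hcard : #α.ToType ≤ #I := by
    rw [Cardinal.mk_toType, Cardinal.mk_ord_toType, Cardinal.succ_aleph0]
    rw [← Cardinal.ord_aleph, Cardinal.lt_ord] at hα
    rw [← Order.lt_succ_iff, Cardinal.succ_aleph, one_add_one_eq_two]
    exact hα
  obtain ⟨e, he⟩ : ∃ e : α.ToType → I, Function.Injective e := by
    obtain ⟨i⟩ := (Cardinal.le_def _ _).mp hcard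
    exact ⟨i, i.injective⟩
  have hfin : ∀ x : α.ToType, {i : I | oI i ∈ K (o x)}.Finite := fun x =>
    (Finset.finite_toSet (K (o x))).preimage (fun a _ b _ hab => hoI_inj hab)
  obtain ⟨G, hG1, hG2⟩ := graph_core (μ := ℵ₀) le_rfl h e he (fun x => (hfin x).toFinset)
  refine ⟨G, hG1, fun S hS => ?_⟩
  obtain ⟨j, d, hjd⟩ := hG2 S hS
  let X : Set Ordinal.{0} := o '' {x | e x < d}
  have hX : X.Countable := by
    refine Set.Countable.image ?_ _
    have h1 : Countable (Set.Iio d) := by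
      have h := Cardinal.mk_Iio_lt d (by simp)
      rw [Cardinal.mk_ord_toType, Order.lt_succ_iff] at h
      exact Cardinal.mk_le_aleph0_iff.mp h
    have h2 : {x | e x < d} = e ⁻¹' (Set.Iio d) := rfl
    rw [h2]
    exact Set.Countable.preimage_of_injOn (Set.to_countable _) he.injOn
  obtain ⟨δ, hδ, φ, hφ1, hφ2⟩ := hK (oI j) (hoI j) X hX
  have hmem : ∀ x ∈ S, o x ∈ {x | x < α ∧ (oI j ∉ K x ∨ x ∈ X)} := by
    intro x hx
    refine ⟨ho x, ?_⟩
    by_cases hj : oI j ∈ K (o x)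
    · right
      exact ⟨x, hjd x hx (by rw [Set.Finite.mem_toFinset]; exact hj), rfl⟩
    · exact Or.inl hj
  have hle : typeLT S ≤ ω₁ ^ (ω + 1) * δ := by
    rw [← type_toType (ω₁ ^ (ω + 1) * δ), type_le_iff']
    refine ⟨RelEmbedding.ofMonotone (fun x : S =>
      ToType.mk (⟨φ (o x.1), hφ2 _ (hmem x.1 x.2)⟩ : Set.Iio (ω₁ ^ (ω + 1) * δ))) ?_⟩
    intro a b hab
    have h1 : φ (o a.1) < φ (o b.1) := hφ1 _ (hmem a.1 a.2) _ (hmem b.1 b.2) (hoo.mpr hab)
    rw [OrderIso.lt_iff_lt]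
    exact h1
  refine hle.trans_lt ?_
  rw [show (ω + 2 : Ordinal.{0}) = (ω + 1) + 1 by rw [add_assoc, one_add_one_eq_two],
      opow_add _ (ω + 1) 1, opow_one]
  exact mul_lt_mul_of_pos_left hδ (opow_pos _ (Ordinal.omega_pos 1))

end

/-- Assuming the continuum hypothesis, for every ordinal `α < ω₂` there is a partition
`[α]² = K₀ ∪ K₁` such that `K₁` has no infinite path and every set all of whose pairs lie in `K₀`
has order type less than `ω₁ ^ (ω + 2)`. Hence `α → (α, infinite path)²` fails for every `α` with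
`ω₁ ^ (ω + 2) ≤ α < ω₂`. -/
theorem ch_result (hCH : Cardinal.continuum.{0} = Cardinal.aleph 1) :
    (∀ α : Ordinal.{0}, α < Ordinal.omega 2 →
      ∃ K₁ : α.ToType → α.ToType → Prop, (∀ x y, K₁ x y → K₁ y x) ∧
        (¬ ∃ f : ℕ → α.ToType, Function.Injective f ∧ ∀ n : ℕ, K₁ (f n) (f (n + 1))) ∧
        ∀ Y : Set α.ToType, (∀ x ∈ Y, ∀ y ∈ Y, x ≠ y → ¬ K₁ x y) →
          Ordinal.type (fun x y : Y => x < y) < Ordinal.omega 1 ^ (Ordinal.omega0 + 2)) ∧
    ∀ α : Ordinal.{0}, Ordinal.omega 1 ^ (Ordinal.omega0 + 2) ≤ α → α < Ordinal.omega 2 →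
      ¬ ∀ K₁ : α.ToType → α.ToType → Prop, (∀ x y, K₁ x y → K₁ y x) →
        (∃ Y : Set α.ToType, (∀ x ∈ Y, ∀ y ∈ Y, x ≠ y → ¬ K₁ x y) ∧
          Ordinal.type (fun x y : Y => x < y) = α) ∨
        ∃ f : ℕ → α.ToType, Function.Injective f ∧ ∀ n : ℕ, K₁ (f n) (f (n + 1)) := by
  have h : (2 : Cardinal.{0}) ^ Cardinal.aleph0 = Order.succ Cardinal.aleph0 := by
    rw [Cardinal.two_power_aleph0, hCH, Cardinal.succ_aleph0]
  have key : ∀ α : Ordinal.{0}, α < Ordinal.omega 2 →
      ∃ K₁ : α.ToType → α.ToType → Prop, (∀ x y, K₁ x y → K₁ y x) ∧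
        (¬ ∃ f : ℕ → α.ToType, Function.Injective f ∧ ∀ n : ℕ, K₁ (f n) (f (n + 1))) ∧
        ∀ Y : Set α.ToType, (∀ x ∈ Y, ∀ y ∈ Y, x ≠ y → ¬ K₁ x y) →
          Ordinal.type (fun x y : Y => x < y) < Ordinal.omega 1 ^ (Ordinal.omega0 + 2) := by
    intro α hα
    obtain ⟨G, h1, h2⟩ := main2 h α hα
    refine ⟨fun x y => G.Adj x y, fun x y hxy => hxy.symm, h1, fun S hS => h2 S ?_⟩
    intro x hx y hy hxy
    exact hS x hx y hy (G.ne_of_adj hxy) hxy
  refine ⟨key, fun α h1 h2 hP => ?_⟩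
  obtain ⟨K₁, hs, h3, h4⟩ := key α h2
  rcases hP K₁ hs with ⟨S, hS, hS'⟩ | hp
  · have := h4 S hS
    rw [hS'] at this
    exact absurd this (not_lt.mpr h1)
  · exact h3 hp

/-- No hypothesis is assumed. First part: there is a notion of forcing `P` all of whose conditions
force that `ω₁` is preserved and that the continuum hypothesis holds. Second part: the continuum
hypothesis implies that for every `α < ω₂` there is a partition `[α]² = K₀ ∪ K₁` without infinite
path in `K₁` and without sets of type `ω₁ ^ (ω + 2)` homogeneous for `K₀`, so that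
`α → (α, infinite path)²` fails for every `α` with `ω₁ ^ (ω + 2) ≤ α < ω₂`. -/
theorem result :
    (∃ (P : Type) (_ : Preorder P), Nonempty P ∧ ∀ p : P,
      p ∈ Pool.Agent.Helper292.ForceCH.OmegaOnePreserved P ∧
      p ∈ Pool.Agent.Helper292.ForceCH.CHHolds P) ∧
    (Cardinal.continuum.{0} = Cardinal.aleph 1 →
      (∀ α : Ordinal.{0}, α < Ordinal.omega 2 →
        ∃ K₁ : α.ToType → α.ToType → Prop, (∀ x y, K₁ x y → K₁ y x) ∧
          (¬ ∃ f : ℕ → α.ToType, Function.Injective f ∧ ∀ n : ℕ, K₁ (f n) (f (n + 1))) ∧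
          ∀ Y : Set α.ToType, (∀ x ∈ Y, ∀ y ∈ Y, x ≠ y → ¬ K₁ x y) →
            Ordinal.type (fun x y : Y => x < y) < Ordinal.omega 1 ^ (Ordinal.omega0 + 2)) ∧
      ∀ α : Ordinal.{0}, Ordinal.omega 1 ^ (Ordinal.omega0 + 2) ≤ α → α < Ordinal.omega 2 →
        ¬ ∀ K₁ : α.ToType → α.ToType → Prop, (∀ x y, K₁ x y → K₁ y x) →
          (∃ Y : Set α.ToType, (∀ x ∈ Y, ∀ y ∈ Y, x ≠ y → ¬ K₁ x y) ∧
            Ordinal.type (fun x y : Y => x < y) = α) ∨
          ∃ f : ℕ → α.ToType, Function.Injective f ∧ ∀ n : ℕ, K₁ (f n) (f (n + 1))) := by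
  refine ⟨?_, ch_result⟩
  obtain ⟨P, i, h1, h2⟩ := Pool.Agent.Helper292.ForceCH.exists_forcing
  exact ⟨P, i, h1, fun p => ⟨(h2 p).1, (h2 p).2.2⟩⟩

end Pool.Agent.Results.MP_820435_lc.ConsistentlyFails
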